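import Mathlib

set_option autoImplicit false

open Finset Module
open scoped Classical

namespace Pool.Agent.Helper35.Cq

variable {F : Type*} [Field F] [Fintype F]

theorem card_ker_mul {M : Type*} [AddCommGroup M] [Module F M] [Fintype M] (g : M →ₗ[F] F)
    (hg : Function.Surjective g) :
    (Finset.univ.filter fun m : M => g m = 0).card * Fintype.card F = Fintype.card M := by
  have h1 : ∀ a : F, (Finset.univ.filter fun m : M => g m = a).card =
      (Finset.univ.filter fun m : M => g m = 0).card := by
    intro a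
    obtain ⟨m₀, hm₀⟩ := hg a
    apply Finset.card_bij' (fun m _ => m - m₀) (fun m _ => m + m₀)
    · intro m hm
      simp only [Finset.mem_filter, Finset.mem_univ, true_and] at hm ⊢
      rw [map_sub, hm, hm₀, sub_self]
    · intro m hm
      simp only [Finset.mem_filter, Finset.mem_univ, true_and] at hm ⊢
      rw [map_add, hm, hm₀, zero_add]
    · intro m hm; simp
    · intro m hm; simp
  have h2 : Fintype.card M = ∑ a : F, (Finset.univ.filter fun m : M => g m = a).card := by
    rw [← Finset.card_univ]
    exact Finset.card_eq_sum_card_fiberwise (fun m _ => Finset.mem_univ _)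
  rw [h2, Finset.sum_congr rfl (fun a _ => h1 a)]
  simp [mul_comm]

theorem exists_functional {V : Type*} [AddCommGroup V] [Module F V] [FiniteDimensional F V]
    (E : Finset V) (h0 : ∀ x ∈ E, x ≠ 0) :
    ∃ f : V →ₗ[F] F, (E.filter fun x => f x = 0).card * Fintype.card F ≤ E.card := by
  have hfin : Finite (V →ₗ[F] F) := Module.finite_of_finite F
  have : Fintype (V →ₗ[F] F) := Fintype.ofFinite _
  by_contra hcon
  push Not at hcon
  have h1 : Fintype.card (V →ₗ[F] F) * E.card < ∑ f : V →ₗ[F] F,
      (E.filter fun x => f x = 0).card * Fintype.card F := by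
    rw [← smul_eq_mul, ← Finset.card_univ, ← Finset.sum_const]
    apply Finset.sum_lt_sum_of_nonempty
    · exact ⟨0, Finset.mem_univ _⟩
    · intro f _
      exact hcon f
  have h2 : ∑ f : V →ₗ[F] F, (E.filter fun x => f x = 0).card * Fintype.card F =
      ∑ x ∈ E, Fintype.card (V →ₗ[F] F) := by
    rw [← Finset.sum_mul]
    simp_rw [Finset.card_filter]
    rw [Finset.sum_comm, Finset.sum_mul]
    refine Finset.sum_congr rfl fun x hx => ?_
    rw [← Finset.card_filter]
    have hsurj : Function.Surjective (LinearMap.applyₗ x : (V →ₗ[F] F) →ₗ[F] F) := by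
      obtain ⟨f, hf⟩ := Module.Projective.exists_dual_eq_one F (h0 x hx)
      intro a
      refine ⟨a • f, ?_⟩
      simp [hf]
    have := card_ker_mul (LinearMap.applyₗ x : (V →ₗ[F] F) →ₗ[F] F) hsurj
    exact this
  rw [h2, Finset.sum_const, smul_eq_mul, mul_comm] at h1
  exact lt_irrefl _ h1

/-- fewer than `q ^ k` nonzero vectors can be avoided by the intersection of `k` hyperplanes -/
theorem exists_avoid_fin {V : Type*} [AddCommGroup V] [Module F V] [FiniteDimensional F V]
    (k : ℕ) : ∀ (E : Finset V), (∀ x ∈ E, x ≠ 0) → E.card < Fintype.card F ^ k →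
    ∃ φ : V →ₗ[F] (Fin k → F), ∀ x ∈ E, φ x ≠ 0 := by
  induction k with
  | zero =>
    intro E h0 hE
    simp only [pow_zero, Nat.lt_one_iff, Finset.card_eq_zero] at hE
    subst hE
    exact ⟨0, by simp⟩
  | succ k ih =>
    intro E h0 hE
    obtain ⟨f, hf⟩ := exists_functional (F := F) E h0
    have h1 : (E.filter fun x => f x = 0).card < Fintype.card F ^ k := by
      have h2 : (E.filter fun x => f x = 0).card * Fintype.card F <
          Fintype.card F ^ k * Fintype.card F := by
        rw [← pow_succ]; omega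
      exact lt_of_mul_lt_mul_right h2 (Nat.zero_le _)
    obtain ⟨φ, hφ⟩ := ih (E.filter fun x => f x = 0)
      (fun x hx => h0 x (Finset.mem_filter.1 hx).1) h1
    refine ⟨LinearMap.pi (Fin.cons f (fun i => (LinearMap.proj i).comp φ)), ?_⟩
    intro x hx h
    have hfx : f x = 0 := by
      have := congrFun h 0
      simpa using this
    apply hφ x (Finset.mem_filter.2 ⟨hx, hfx⟩)
    funext i
    have := congrFun h i.succ
    simpa using this

theorem exists_avoid {V : Type*} [AddCommGroup V] [Module F V]
    (k : ℕ) (E : Finset V) (h0 : ∀ x ∈ E, x ≠ 0) (hE : E.card < Fintype.card F ^ k) :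
    ∃ φ : V →ₗ[F] (Fin k → F), ∀ x ∈ E, φ x ≠ 0 := by
  set W := Submodule.span F (E : Set V) with hW
  have hfin : FiniteDimensional F W := FiniteDimensional.span_of_finite F E.finite_toSet
  have hmem : ∀ x ∈ E, x ∈ W := fun x hx => Submodule.subset_span hx
  let E' : Finset W := E.attach.image fun x => ⟨x.1, hmem x.1 x.2⟩
  have h1 : E'.card < Fintype.card F ^ k := by
    refine lt_of_le_of_lt Finset.card_image_le ?_
    rwa [Finset.card_attach]
  have h2 : ∀ x ∈ E', x ≠ 0 := by
    intro x hx
    obtain ⟨y, -, rfl⟩ := Finset.mem_image.1 hx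
    intro h
    exact h0 y.1 y.2 (congrArg Subtype.val h)
  obtain ⟨φ, hφ⟩ := exists_avoid_fin k E' h2 h1
  obtain ⟨ψ, hψ⟩ := LinearMap.exists_extend φ
  refine ⟨ψ, fun x hx => ?_⟩
  have h3 := hφ ⟨x, hmem x hx⟩ (Finset.mem_image.2 ⟨⟨x, hx⟩, Finset.mem_attach _ _, rfl⟩)
  rw [← hψ] at h3
  simpa using h3

end Pool.Agent.Helper35.Cq
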