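import Mathlib

/-!
# Clique minors of matroids represented over a finite field: definitions
-/

set_option autoImplicit false

open Finset Module
open scoped Classical

namespace Pool.Agent.Helper35.Cq

variable (F : Type*) [Field F] {V : Type*} [AddCommGroup V] [Module F V]

/-- The matroid represented by the vectors of `E` has a minor `M(K_t)`: there are a subset `C` of
`E` (to be contracted) and vectors `v_1, ..., v_t`, the differences of which are as independent as
possible modulo the span of `C`, such that for `i ≠ j` some element of `E` is a nonzero multiple of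
`v_i - v_j` modulo the span of `C`. -/
def HasClique (t : ℕ) (E : Set V) : Prop :=
  ∃ C ⊆ E, ∃ v : Fin t → V,
    (∀ α : Fin t → F, ∑ i, α i = 0 → ∑ i, α i • v i ∈ Submodule.span F C → α = 0) ∧
    ∀ i j, i ≠ j → ∃ e ∈ E, ∃ c : F, c ≠ 0 ∧ e - c • (v i - v j) ∈ Submodule.span F C

/-- a set of nonzero vectors closed under nonzero scalars -/
structure Conic (E : Finset V) : Prop where
  ne_zero : ∀ x ∈ E, x ≠ 0
  smul_mem : ∀ c : F, c ≠ 0 → ∀ x ∈ E, c • x ∈ E

/-- the rank of a set of vectors -/
noncomputable def rk (X : Finset V) : ℕ := Module.finrank F (Submodule.span F (X : Set V))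

/-- `x`, `y` are independent and the line through them contains a third point of `E` -/
def Long (E : Finset V) (x y : V) : Prop :=
  (∀ a b : F, a • x + b • y = 0 → a = 0 ∧ b = 0) ∧ ∃ b : F, b ≠ 0 ∧ x + b • y ∈ E

/-- ordered pairs of `A × B` on long lines of `E` -/
noncomputable def pairs (E A B : Finset V) : Finset (V × V) :=
  (A ×ˢ B).filter fun p => Long F E p.1 p.2

/-- the elements of `E` on a long line with `x` -/
noncomputable def nb (E : Finset V) (x : V) : Finset V := E.filter fun y => Long F E x y

/-- contraction of `x` -/
noncomputable def con (E : Finset V) (x : V) : Finset (V ⧸ Submodule.span F {x}) :=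
  (E.image (Submodule.span F {x}).mkQ).erase 0

/-- long pairs `(y, z)` with `(x, y)` long such that for some `a ≠ 0` also `y + a x ∈ E` and
`(y + a x, z)` is long -/
noncomputable def shifted (E : Finset V) (x : V) : Finset (V × V) :=
  (pairs F E (nb F E x) E).filter fun p =>
    ∃ a : F, a ≠ 0 ∧ p.1 + a • x ∈ E ∧ Long F E (p.1 + a • x) p.2

/-- number of ordered triangles of long lines -/
noncomputable def tri (E : Finset V) : ℕ := ∑ x ∈ E, (pairs F E (nb F E x) (nb F E x)).card

end Pool.Agent.Helper35.Cq
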