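import Pool.Agent.Helper81.Cq.PairsSelf
import Pool.Agent.Helper68.Cq.CardLe

set_option autoImplicit false

open Finset Module
open scoped Classical

namespace Pool.Agent.Helper35.Cq

theorem rk_pos {F : Type*} [Field F] {V : Type*} [AddCommGroup V]
    [Module F V] {Y : Finset V} {y : V} (hy : y ∈ Y) (h0 : y ≠ 0) : 0 < rk F Y := by
  unfold rk
  have hfin : FiniteDimensional F (Submodule.span F (Y : Set V)) :=
    FiniteDimensional.span_of_finite F Y.finite_toSet
  have : Nontrivial (Submodule.span F (Y : Set V)) := by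
    refine ⟨⟨⟨y, Submodule.subset_span hy⟩, 0, ?_⟩⟩
    intro h
    apply h0
    exact congrArg Subtype.val h
  exact Module.finrank_pos

theorem le_of_nonhub' {F : Type*} [Field F] [Fintype F] {V : Type*} [AddCommGroup V]
    [Module F V] {E : Finset V} (hE : Conic F E) (t : ℕ) (hcl : ¬ HasClique F t (E : Set V))
    (l : ℝ) (hl : 0 < l) (K : ℕ) (hK : 0 < K) (w : V)
    (hD : ((nb F E w).card : ℝ) ≤ K * l)
    (ht : l ^ 2 / (72 * Fintype.card F) ≤ (pairs F E (nb F E w) (nb F E w)).card) :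
    l ≤ 73 * Fintype.card F * (2 ^ (t + 6) * Fintype.card F) * K *
      ((73 * Fintype.card F * (2 ^ (t + 6) * Fintype.card F) * K ^ 2 + 1) ^ t *
        Fintype.card F ^ (2 * t)) := by
  set q : ℕ := Fintype.card F with hq
  have hq0 : 0 < q := Fintype.card_pos
  set γ : ℕ := 2 ^ (t + 6) * q with hγ
  have hγ0 : 0 < γ := by positivity
  have hγR : (γ : ℝ) = 2 ^ (t + 6) * q := by rw [hγ]; push_cast; ring
  set L : ℝ := l / (73 * q * γ * K) with hL
  have hKR : (0 : ℝ) < K := by exact_mod_cast hK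
  have hqR : (0 : ℝ) < q := by exact_mod_cast hq0
  have hγR0 : (0 : ℝ) < γ := by exact_mod_cast hγ0
  have hL0 : 0 < L := by positivity
  have hne : ∀ x ∈ nb F E w, x ≠ 0 := by
    intro x hx
    exact hE.ne_zero x (Finset.mem_filter.1 hx).1
  have hY : ∃ Y ⊆ nb F E w, L * rk F Y < Y.card := by
    by_contra hcon
    push Not at hcon
    have h1 := card_pairs_self_le hE t hcl (nb F E w) L hne hcon
    rw [← hq, ← hγR] at h1
    have h2 : (γ : ℝ) * L * (nb F E w).card ≤ γ * L * (K * l) := by gcongr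
    have h3 : (γ : ℝ) * L * (K * l) = l ^ 2 / (73 * q) := by
      rw [hL]; field_simp
    have h4 : l ^ 2 / (73 * q) < l ^ 2 / (72 * q) := by
      apply div_lt_div_of_pos_left <;> first | positivity | nlinarith
    linarith
  obtain ⟨Y, hYX, hYc⟩ := hY
  have hYne : Y.Nonempty := by
    rw [Finset.nonempty_iff_ne_empty]
    rintro rfl
    simp at hYc
    have : 0 ≤ L * rk F (∅ : Finset V) := by positivity
    linarith
  obtain ⟨y, hy⟩ := hYne
  have hr1 : 0 < rk F Y := rk_pos hy (hne y (hYX hy))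
  have hcardY : (Y.card : ℝ) ≤ K * l := le_trans (by exact_mod_cast Finset.card_le_card hYX) hD
  have hrk : rk F Y ≤ 73 * q * γ * K ^ 2 := by
    have h5 : L * rk F Y < K * l := lt_of_lt_of_le hYc hcardY
    have h6 : (K : ℝ) * l = L * (73 * q * γ * K ^ 2 : ℕ) := by
      rw [hL]; push_cast; field_simp
    rw [h6] at h5
    have h7 := lt_of_mul_lt_mul_left h5 hL0.le
    exact_mod_cast h7.le
  have hYE : Y ⊆ E := hYX.trans (Finset.filter_subset _ _)
  have h8 := card_le_of_rk_le t hcl Y hYE _ hrk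
  rw [← hq] at h8
  have h9 : (Y.card : ℝ) ≤ ((73 * q * γ * K ^ 2 + 1) ^ t * q ^ (2 * t) : ℕ) := by exact_mod_cast h8
  have h10 : L ≤ Y.card := by
    have : L * 1 ≤ L * rk F Y := by
      gcongr
      exact_mod_cast hr1
    linarith
  have h11 : l = 73 * q * γ * K * L := by
    rw [hL]; field_simp
  have h12 : l ≤ 73 * q * γ * K * ((73 * q * γ * K ^ 2 + 1) ^ t * q ^ (2 * t) : ℕ) := by
    rw [h11]
    gcongr
    exact h10.trans h9
  push_cast at h12
  rw [hγR] at h12
  exact h12

end Pool.Agent.Helper35.Cq
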