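import Pool.Agent.Helper35.Cq.TriGe
import Pool.Agent.Helper35.Cq.NonHub
import Pool.Agent.Helper70.Cq.Nonhub

set_option autoImplicit false

open Finset Module
open scoped Classical

namespace Pool.Agent.Helper35.Cq

section basics
variable {F : Type*} [Field F] {V : Type*} [AddCommGroup V] [Module F V]

theorem HasClique.mono {t : ℕ} {E E' : Set V} (h : HasClique F t E) (hEE : E ⊆ E') :
    HasClique F t E' := by
  obtain ⟨C, hC, v, h1, h2⟩ := h
  refine ⟨C, hC.trans hEE, v, h1, fun i j hij => ?_⟩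
  obtain ⟨e, he, c, hc⟩ := h2 i j hij
  exact ⟨e, hEE he, c, hc⟩

theorem rk_le_card (X : Finset V) : rk F X ≤ X.card := by
  unfold rk
  exact finrank_span_finset_le_card X

/-- the cone generated by `Y` inside `E` -/
noncomputable def cone (F : Type*) [Field F] {V : Type*} [AddCommGroup V] [Module F V]
    (E Y : Finset V) : Finset V := E.filter fun x => ∃ c : F, c ≠ 0 ∧ ∃ y ∈ Y, x = c • y

theorem cone_subset (E Y : Finset V) : cone F E Y ⊆ E := Finset.filter_subset _ _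

theorem subset_cone {E Y : Finset V} (hY : Y ⊆ E) : Y ⊆ cone F E Y := by
  intro y hy
  refine Finset.mem_filter.2 ⟨hY hy, 1, one_ne_zero, y, hy, by simp⟩

theorem conic_cone {E Y : Finset V} (hE : Conic F E) : Conic F (cone F E Y) := by
  refine ⟨fun x hx => hE.ne_zero x (cone_subset E Y hx), fun c hc x hx => ?_⟩
  obtain ⟨hxE, d, hd, y, hy, rfl⟩ := Finset.mem_filter.1 hx
  refine Finset.mem_filter.2 ⟨hE.smul_mem c hc _ hxE, c * d, mul_ne_zero hc hd, y, hy, ?_⟩
  rw [smul_smul]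

theorem rk_cone {E Y : Finset V} (hY : Y ⊆ E) : rk F (cone F E Y) = rk F Y := by
  unfold rk
  have : Submodule.span F (cone F E Y : Set V) = Submodule.span F (Y : Set V) := by
    apply le_antisymm
    · rw [Submodule.span_le]
      intro x hx
      obtain ⟨hxE, d, hd, y, hy, rfl⟩ := Finset.mem_filter.1 (Finset.mem_coe.1 hx)
      exact Submodule.smul_mem _ _ (Submodule.subset_span hy)
    · apply Submodule.span_mono
      exact_mod_cast subset_cone hY
  rw [this]

theorem card_pairs_eq_sum (E : Finset V) :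
    ((pairs F E E E).card : ℝ) = ∑ x ∈ E, ((nb F E x).card : ℝ) := by
  rw [← Nat.cast_sum]
  congr 1
  unfold pairs nb
  rw [Finset.card_filter, Finset.sum_product]
  simp_rw [Finset.card_filter]

end basics

/-- the numerical inequality -/
theorem numeric (q t : ℕ) (hq : 2 ≤ q) :
    8 * (2 ^ (t + 6) * q) * q ^ 2 ≤ q ^ (7 * t ^ 2 + 76 * t + 42) ∧
    73 * q * (2 ^ (t + 6) * q) * (24 * q * (2 ^ (t + 6) * q) ^ 3) *
      ((73 * q * (2 ^ (t + 6) * q) * (24 * q * (2 ^ (t + 6) * q) ^ 3) ^ 2 + 1) ^ t *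
        q ^ (2 * t)) ≤ q ^ (7 * t ^ 2 + 76 * t + 42) := by
  have h2 : ∀ n, 2 ^ n ≤ q ^ n := fun n => Nat.pow_le_pow_left hq n
  have hq1 : 1 ≤ q := by omega
  have hγ : 2 ^ (t + 6) * q ≤ q ^ (t + 7) := by
    calc 2 ^ (t + 6) * q ≤ q ^ (t + 6) * q := by gcongr
      _ = q ^ (t + 7) := by ring
  have hK : 24 * q * (2 ^ (t + 6) * q) ^ 3 ≤ q ^ (3 * t + 27) := by
    calc 24 * q * (2 ^ (t + 6) * q) ^ 3 ≤ 2 ^ 5 * q * (q ^ (t + 7)) ^ 3 := by gcongr; norm_num
      _ ≤ q ^ 5 * q * (q ^ (t + 7)) ^ 3 := by gcongr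
      _ = q ^ (3 * t + 27) := by ring
  have hk : 73 * q * (2 ^ (t + 6) * q) * (24 * q * (2 ^ (t + 6) * q) ^ 3) ^ 2 + 1 ≤
      q ^ (7 * t + 70) := by
    have h1 : 73 * q * (2 ^ (t + 6) * q) * (24 * q * (2 ^ (t + 6) * q) ^ 3) ^ 2 ≤
        q ^ (7 * t + 69) := by
      calc 73 * q * (2 ^ (t + 6) * q) * (24 * q * (2 ^ (t + 6) * q) ^ 3) ^ 2
          ≤ 2 ^ 7 * q * q ^ (t + 7) * (q ^ (3 * t + 27)) ^ 2 := by gcongr; norm_num
        _ ≤ q ^ 7 * q * q ^ (t + 7) * (q ^ (3 * t + 27)) ^ 2 := by gcongr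
        _ = q ^ (7 * t + 69) := by ring
    have h3 : 1 ≤ q ^ (7 * t + 69) := Nat.one_le_pow _ _ (by omega)
    calc _ ≤ q ^ (7 * t + 69) + q ^ (7 * t + 69) := by omega
      _ = 2 * q ^ (7 * t + 69) := by ring
      _ ≤ q * q ^ (7 * t + 69) := by gcongr
      _ = q ^ (7 * t + 70) := by ring
  constructor
  · calc 8 * (2 ^ (t + 6) * q) * q ^ 2 ≤ 2 ^ 3 * q ^ (t + 7) * q ^ 2 := by gcongr; norm_num
      _ ≤ q ^ 3 * q ^ (t + 7) * q ^ 2 := by gcongr
      _ = q ^ (t + 12) := by ring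
      _ ≤ q ^ (7 * t ^ 2 + 76 * t + 42) := by
        apply Nat.pow_le_pow_right (by omega)
        nlinarith [Nat.zero_le (t ^ 2)]
  · calc 73 * q * (2 ^ (t + 6) * q) * (24 * q * (2 ^ (t + 6) * q) ^ 3) *
        ((73 * q * (2 ^ (t + 6) * q) * (24 * q * (2 ^ (t + 6) * q) ^ 3) ^ 2 + 1) ^ t *
        q ^ (2 * t)) ≤ 2 ^ 7 * q * q ^ (t + 7) * q ^ (3 * t + 27) *
          ((q ^ (7 * t + 70)) ^ t * q ^ (2 * t)) := by gcongr; norm_num
      _ ≤ q ^ 7 * q * q ^ (t + 7) * q ^ (3 * t + 27) *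
          ((q ^ (7 * t + 70)) ^ t * q ^ (2 * t)) := by gcongr
      _ = q ^ (7 + 1 + (t + 7) + (3 * t + 27) + ((7 * t + 70) * t + 2 * t)) := by
        rw [← pow_mul, ← pow_add, ← pow_succ, ← pow_add, ← pow_add, ← pow_add]
      _ = q ^ (7 * t ^ 2 + 76 * t + 42) := by
        congr 1; ring

universe u

/-- the class of triples (size, rank, number of long pairs) -/
def Cls (F : Type*) [Field F] (t n : ℕ) : Set (ℕ × ℕ × ℕ) :=
  {p | ∃ (W : Type u) (_ : AddCommGroup W) (_ : Module F W) (X : Finset W), Conic F X ∧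
    ¬ HasClique F t (X : Set W) ∧ X.card ≤ n ∧ X.Nonempty ∧
    p = (X.card, rk F X, (pairs F X X X).card)}

theorem Cls_finite (F : Type*) [Field F] (t n : ℕ) : (Cls.{u} F t n).Finite := by
  apply Set.Finite.subset
    ((Finset.range (n + 1) ×ˢ (Finset.range (n + 1) ×ˢ Finset.range (n * n + 1))).finite_toSet)
  rintro p ⟨W, _, _, X, -, -, hn, -, rfl⟩
  simp only [Finset.coe_product, Set.mem_prod, Finset.mem_coe, Finset.mem_range]
  have h1 := rk_le_card (F := F) X
  refine ⟨by omega, by omega, ?_⟩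
  have h2 : (pairs F X X X).card ≤ X.card * X.card := by
    refine (Finset.card_filter_le _ _).trans ?_
    rw [Finset.card_product]
  have h3 : X.card * X.card ≤ n * n := Nat.mul_le_mul hn hn
  omega

theorem density'.{v} {F : Type v} [Field F] [Fintype F] (t : ℕ) {V : Type u} [AddCommGroup V]
    [Module F V] {E : Finset V} (hE : Conic F E) (hcl : ¬ HasClique F t (E : Set V)) :
    E.card ≤ Fintype.card F ^ (7 * t ^ 2 + 76 * t + 42) * rk F E := by
  rcases E.eq_empty_or_nonempty with rfl | hne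
  · simp
  set q : ℕ := Fintype.card F with hq
  have hq2 : 2 ≤ q := Fintype.one_lt_card
  have hqR : (0 : ℝ) < q := by exact_mod_cast (by omega : 0 < q)
  set n := E.card with hn
  set γ : ℕ := 2 ^ (t + 6) * q with hγ
  have hγ0 : 0 < γ := by positivity
  have hγR : (γ : ℝ) = 2 ^ (t + 6) * q := by rw [hγ]; push_cast; ring
  have hγR0 : (0 : ℝ) < γ := by exact_mod_cast hγ0
  have hfin := Cls_finite.{u} F t n
  have hEc : ((E.card, rk F E, (pairs F E E E).card) : ℕ × ℕ × ℕ) ∈ Cls.{u} F t n :=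
    ⟨V, inferInstance, inferInstance, E, hE, hcl, le_rfl, hne, rfl⟩
  obtain ⟨pM, hpM, hmaxM⟩ := Set.exists_max_image (Cls.{u} F t n)
    (fun p => (p.1 : ℝ) / (p.2.1 : ℝ)) hfin ⟨_, hEc⟩
  obtain ⟨pN, hpN, hmaxN⟩ := Set.exists_max_image (Cls.{u} F t n)
    (fun p => (p.2.2 : ℝ) / (p.2.1 : ℝ)) hfin ⟨_, hEc⟩
  set l : ℝ := (pM.1 : ℝ) / (pM.2.1 : ℝ) with hl
  set ρ : ℝ := (pN.2.2 : ℝ) / (pN.2.1 : ℝ) with hρ
  have hl0 : 0 ≤ l := by positivity
  have hρ0 : 0 ≤ ρ := by positivity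
  -- the two bounds, for all members and for the empty set
  have hrkpos : ∀ (W : Type u) (_ : AddCommGroup W) (_ : Module F W) (X : Finset W),
      Conic F X → X.Nonempty → 0 < rk F X := by
    intro W _ _ X hX hXne
    obtain ⟨x, hx⟩ := hXne
    exact rk_pos hx (hX.ne_zero x hx)
  have bl : ∀ (W : Type u) (_ : AddCommGroup W) (_ : Module F W) (X : Finset W),
      Conic F X → ¬ HasClique F t (X : Set W) → X.card ≤ n → (X.card : ℝ) ≤ l * rk F X := by
    intro W _ _ X hX hXc hXn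
    rcases X.eq_empty_or_nonempty with rfl | hXne
    · simp; positivity
    · have h1 := hmaxM _ ⟨W, inferInstance, inferInstance, X, hX, hXc, hXn, hXne, rfl⟩
      have h2 : (0 : ℝ) < rk F X := by exact_mod_cast hrkpos W _ _ X hX hXne
      simp only at h1
      rw [div_le_iff₀ h2] at h1
      exact h1
  have bρ : ∀ (W : Type u) (_ : AddCommGroup W) (_ : Module F W) (X : Finset W),
      Conic F X → ¬ HasClique F t (X : Set W) → X.card ≤ n →
      ((pairs F X X X).card : ℝ) ≤ ρ * rk F X := by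
    intro W _ _ X hX hXc hXn
    rcases X.eq_empty_or_nonempty with rfl | hXne
    · simp [pairs]; positivity
    · have h1 := hmaxN _ ⟨W, inferInstance, inferInstance, X, hX, hXc, hXn, hXne, rfl⟩
      have h2 : (0 : ℝ) < rk F X := by exact_mod_cast hrkpos W _ _ X hX hXne
      simp only at h1
      rw [div_le_iff₀ h2] at h1
      exact h1
  -- it suffices to bound `l`
  suffices hgoal : l ≤ (q ^ (7 * t ^ 2 + 76 * t + 42) : ℕ) by
    have h1 := bl V _ _ E hE hcl le_rfl
    have h2 : (E.card : ℝ) ≤ (q ^ (7 * t ^ 2 + 76 * t + 42) : ℕ) * rk F E := by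
      refine h1.trans ?_
      gcongr
    exact_mod_cast h2
  by_contra hbig
  push Not at hbig
  obtain ⟨hnum1, hnum2⟩ := numeric q t hq2
  rw [← hγ] at hnum1 hnum2
  have hl8 : 8 * (γ : ℝ) * q ^ 2 ≤ l := by
    have : ((8 * γ * q ^ 2 : ℕ) : ℝ) ≤ (q ^ (7 * t ^ 2 + 76 * t + 42) : ℕ) := by
      exact_mod_cast hnum1
    push_cast at this hbig ⊢
    linarith
  have hlpos : 0 < l := lt_of_lt_of_le (by positivity) hl8
  -- contraction of points of the maximiser of the density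
  have hρl : l ^ 2 / 2 ≤ ρ := by
    obtain ⟨W, iW, jW, X, hX, hXc, hXn, hXne, hp⟩ := hpM
    have hXl : (X.card : ℝ) = l * rk F X := by
      have h2 : (0 : ℝ) < rk F X := by exact_mod_cast hrkpos W _ _ X hX hXne
      rw [hl, hp]
      field_simp
    have hdeg : ∀ x ∈ X, l - q ≤ (nb F X x).card := by
      intro x hx
      have h1 : (X.card : ℝ) ≤ (con F X x).card + q + (nb F X x).card := by
        exact_mod_cast card_le_con hX hx
      have h2 := bl _ _ _ (con F X x) (conic_con hX hx)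
        (fun h => hXc (hasClique_con hX hx t h)) ((card_con_le hX hx).trans hXn)
      have h3 : (rk F (con F X x) : ℝ) + 1 = rk F X := by exact_mod_cast rk_con hX hx
      rw [← h3] at hXl
      linarith
    have h4 : (X.card : ℝ) * (l - q) ≤ (pairs F X X X).card := by
      rw [card_pairs_eq_sum, ← nsmul_eq_mul]
      exact Finset.card_nsmul_le_sum _ _ _ hdeg
    have h5 := bρ W _ _ X hX hXc hXn
    have h6 : (0 : ℝ) < rk F X := by exact_mod_cast hrkpos W _ _ X hX hXne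
    have h7 : l * (l - q) * rk F X ≤ ρ * rk F X := by
      rw [hXl] at h4
      linarith
    have h8 := le_of_mul_le_mul_right h7 h6
    have h9 : 2 * (q : ℝ) ≤ l := by
      have h10 : (1 : ℝ) ≤ γ := by exact_mod_cast hγ0
      have h11 : (1 : ℝ) ≤ q := by exact_mod_cast (by omega : 1 ≤ q)
      nlinarith
    nlinarith
  -- the maximiser of the number of long pairs
  obtain ⟨W, iW, jW, X, hX, hXc, hXn, hXne, hp⟩ := hpN
  have hr0 : (0 : ℝ) < rk F X := by exact_mod_cast hrkpos W _ _ X hX hXne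
  have he : ((pairs F X X X).card : ℝ) = ρ * rk F X := by
    rw [hρ, hp]
    field_simp
  have hsub : ∀ Y ⊆ X, (Y.card : ℝ) ≤ l * rk F Y := by
    intro Y hY
    have h1 : (Y.card : ℝ) ≤ (cone F X Y).card := by
      exact_mod_cast Finset.card_le_card (subset_cone hY)
    have h2 := bl W _ _ (cone F X Y) (conic_cone hX)
      (fun h => hXc (h.mono (by exact_mod_cast cone_subset X Y)))
      ((Finset.card_le_card (cone_subset X Y)).trans hXn)
    rw [rk_cone hY] at h2
    exact h1.trans h2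
  have hpX : ∀ Y ⊆ X, ((pairs F X Y Y).card : ℝ) ≤ γ * l * Y.card := by
    intro Y hY
    have := card_pairs_self_le hX t hXc Y l (fun x hx => hX.ne_zero x (hY hx))
      (fun Z hZ => hsub Z (hZ.trans hY))
    rw [← hq, ← hγR] at this
    exact this
  have htri := tri_ge' hX ρ he (fun x hx => bρ _ _ _ (con F X x) (conic_con hX hx)
    (fun h => hXc (hasClique_con hX hx t h)) ((card_con_le hX hx).trans hXn))
  rw [← hq] at htri
  have hXcard : (0 : ℝ) < X.card := by exact_mod_cast hXne.card_pos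
  have h1 : l * rk F X ≤ 2 * γ * X.card := by
    have h2 := hpX X subset_rfl
    rw [he] at h2
    have h3 : l ^ 2 / 2 * rk F X ≤ γ * l * X.card := le_trans (by gcongr) h2
    have h4 : l * (l * rk F X) ≤ l * (2 * γ * X.card) := by nlinarith
    exact le_of_mul_le_mul_left h4 hlpos
  have h2 : 4 * (q : ℝ) ^ 2 * rk F X ≤ X.card := by
    have h3 : 8 * (γ : ℝ) * q ^ 2 * rk F X ≤ 2 * γ * X.card := le_trans (by gcongr) h1
    have h4 : 2 * (γ : ℝ) * (4 * (q : ℝ) ^ 2 * rk F X) ≤ 2 * γ * X.card := by linarith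
    exact le_of_mul_le_mul_left h4 (by positivity)
  have h3 : l ^ 2 * X.card / (12 * q) ≤ tri F X := by
    rw [div_le_iff₀ (by positivity)]
    rw [he] at htri
    have h4 : 2 * (q : ℝ) ^ 2 * (ρ * rk F X) ≤ ρ * X.card / 2 := by
      have := mul_le_mul_of_nonneg_left h2 hρ0
      linarith
    have haux : ∀ a b c : ℝ, a ≤ b + c → b ≤ a / 2 → a / 2 ≤ c := by
      intro a b c h h'
      linarith
    have h5 : ρ * X.card / 2 ≤ 3 * q * tri F X := haux _ _ _ htri h4
    have h6 : l ^ 2 / 2 * X.card ≤ ρ * X.card := mul_le_mul_of_nonneg_right hρl hXcard.le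
    linarith only [h5, h6]
  obtain ⟨w, hw, hwD, hwt⟩ := exists_nonhub hX (γ : ℝ) l (24 * q * γ ^ 3) hlpos hγR0 hXne hpX rfl h3
  have hfinal := le_of_nonhub' hX t hXc l hlpos (24 * q * γ ^ 3) (by positivity) w
    (by push_cast; exact hwD) hwt
  rw [← hq, ← hγR] at hfinal
  have h5 : ((73 * q * γ * (24 * q * γ ^ 3) *
      ((73 * q * γ * (24 * q * γ ^ 3) ^ 2 + 1) ^ t * q ^ (2 * t)) : ℕ) : ℝ) ≤
      (q ^ (7 * t ^ 2 + 76 * t + 42) : ℕ) := by exact_mod_cast hnum2
  push_cast at h5 hbig hfinal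
  linarith

end Pool.Agent.Helper35.Cq
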