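import Pool.Agent.Helper35.Cq.Density
import Pool.Agent.Helper35.Cq.Crit

set_option autoImplicit false

open Finset Module
open scoped Classical

namespace Pool.Agent.Helper35.Cq

universe u v

section
variable {F : Type v} [Field F] [Fintype F] {V : Type u} [AddCommGroup V] [Module F V]

/-- all nonzero multiples of the elements of `E` -/
noncomputable def full (F : Type v) [Field F] [Fintype F] {V : Type u} [AddCommGroup V]
    [Module F V] (E : Finset V) : Finset V :=
  ((Finset.univ.filter fun c : F => c ≠ 0) ×ˢ E).image fun p => p.1 • p.2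

theorem mem_full {E : Finset V} {x : V} :
    x ∈ full F E ↔ ∃ c : F, c ≠ 0 ∧ ∃ y ∈ E, x = c • y := by
  unfold full
  simp only [Finset.mem_image, Finset.mem_product, Finset.mem_filter, Finset.mem_univ, true_and,
    Prod.exists]
  constructor
  · rintro ⟨c, y, ⟨hc, hy⟩, rfl⟩
    exact ⟨c, hc, y, hy, rfl⟩
  · rintro ⟨c, hc, y, hy, rfl⟩
    exact ⟨c, y, ⟨hc, hy⟩, rfl⟩

theorem subset_full (E : Finset V) : E ⊆ full F E := fun x hx =>
  mem_full.2 ⟨1, one_ne_zero, x, hx, by simp⟩

theorem conic_full {E : Finset V} (h0 : ∀ x ∈ E, x ≠ 0) : Conic F (full F E) := by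
  constructor
  · intro x hx
    obtain ⟨c, hc, y, hy, rfl⟩ := mem_full.1 hx
    exact smul_ne_zero hc (h0 y hy)
  · intro d hd x hx
    obtain ⟨c, hc, y, hy, rfl⟩ := mem_full.1 hx
    exact mem_full.2 ⟨d * c, mul_ne_zero hd hc, y, hy, smul_smul _ _ _⟩

theorem rk_full (E : Finset V) : rk F (full F E) = rk F E := by
  unfold rk
  have : Submodule.span F (full F E : Set V) = Submodule.span F (E : Set V) := by
    apply le_antisymm
    · rw [Submodule.span_le]
      intro x hx
      obtain ⟨c, hc, y, hy, rfl⟩ := mem_full.1 (Finset.mem_coe.1 hx)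
      exact Submodule.smul_mem _ _ (Submodule.subset_span hy)
    · apply Submodule.span_mono
      exact_mod_cast subset_full E
  rw [this]

theorem hasClique_of_full {t : ℕ} {E : Finset V} (h : HasClique F t (full F E : Set V)) :
    HasClique F t (E : Set V) := by
  obtain ⟨C, hC, v, h1, h2⟩ := h
  let C' : Set V := {x | x ∈ E ∧ ∃ c : F, c ≠ 0 ∧ c • x ∈ C}
  have hspan : Submodule.span F C' = Submodule.span F C := by
    apply le_antisymm
    · rw [Submodule.span_le]
      rintro x ⟨hx, c, hc, hcx⟩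
      have : x = c⁻¹ • (c • x) := by rw [smul_smul, inv_mul_cancel₀ hc, one_smul]
      rw [this]
      exact Submodule.smul_mem _ _ (Submodule.subset_span hcx)
    · rw [Submodule.span_le]
      intro x hx
      obtain ⟨c, hc, y, hy, rfl⟩ := mem_full.1 (Finset.mem_coe.1 (hC hx))
      exact Submodule.smul_mem _ _ (Submodule.subset_span ⟨hy, c, hc, hx⟩)
  refine ⟨C', fun x hx => hx.1, v, ?_, ?_⟩
  · rw [hspan]; exact h1
  · intro i j hij
    obtain ⟨e, he, c, hc, hec⟩ := h2 i j hij
    obtain ⟨d, hd, y, hy, rfl⟩ := mem_full.1 (Finset.mem_coe.1 he)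
    refine ⟨y, hy, d⁻¹ * c, mul_ne_zero (inv_ne_zero hd) hc, ?_⟩
    rw [hspan]
    have : y - (d⁻¹ * c) • (v i - v j) = d⁻¹ • (d • y - c • (v i - v j)) := by
      rw [smul_sub d⁻¹ (d • y), smul_smul d⁻¹ d, inv_mul_cancel₀ hd, one_smul, smul_smul d⁻¹ c]
    rw [this]
    exact Submodule.smul_mem _ _ hec

theorem density_all (t : ℕ) (E : Finset V) (h0 : ∀ x ∈ E, x ≠ 0)
    (hE : ¬ HasClique F t (E : Set V)) :
    E.card ≤ Fintype.card F ^ (7 * t ^ 2 + 76 * t + 42) * rk F E := by
  have h1 := density' t (conic_full h0) (fun h => hE (hasClique_of_full h))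
  rw [rk_full] at h1
  exact (Finset.card_le_card (subset_full E)).trans h1

end

end Pool.Agent.Helper35.Cq
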