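import Pool.Agent.Helper77.Cq.Contr
import Pool.Agent.Helper19.Cq.PairsCon
import Pool.Agent.Helper91.Cq.Shifted

set_option autoImplicit false

open Finset Module
open scoped Classical

namespace Pool.Agent.Helper35.Cq

theorem tri_ge' {F : Type*} [Field F] [Fintype F] {V : Type*} [AddCommGroup V]
    [Module F V] {E : Finset V} (hE : Conic F E) (ρ : ℝ)
    (h1 : ((pairs F E E E).card : ℝ) = ρ * rk F E)
    (h2 : ∀ x ∈ E, ((pairs F (con F E x) (con F E x) (con F E x)).card : ℝ) ≤
      ρ * rk F (con F E x)) :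
    ρ * E.card ≤ 2 * Fintype.card F ^ 2 * (pairs F E E E).card + 3 * Fintype.card F * tri F E := by
  set q : ℕ := Fintype.card F with hq
  have hq1 : 1 ≤ q := Fintype.card_pos
  have key : ∀ x ∈ E, ρ ≤ 2 * (q : ℝ) ^ 2 * (nb F E x).card +
      (pairs F E (nb F E x) (nb F E x)).card + 2 * (shifted F E x).card := by
    intro x hx
    have ha := h2 x hx
    have hb : ((pairs F E E E).card : ℝ) ≤
        (pairs F (con F E x) (con F E x) (con F E x)).card + 2 * (q : ℝ) ^ 2 * (nb F E x).card
        + (pairs F E (nb F E x) (nb F E x)).card + 2 * (shifted F E x).card := by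
      exact_mod_cast pairs_le_con hE hx
    have hc : (rk F (con F E x) : ℝ) + 1 = rk F E := by exact_mod_cast rk_con hE hx
    rw [h1, ← hc] at hb
    linarith
  have hsum := Finset.sum_le_sum key
  rw [Finset.sum_const, nsmul_eq_mul] at hsum
  have hpairs : ((pairs F E E E).card : ℝ) = ∑ x ∈ E, ((nb F E x).card : ℝ) := by
    rw [← Nat.cast_sum]
    congr 1
    unfold pairs nb
    rw [Finset.card_filter, Finset.sum_product]
    simp_rw [Finset.card_filter]
  have htri : (tri F E : ℝ) = ∑ x ∈ E, ((pairs F E (nb F E x) (nb F E x)).card : ℝ) := by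
    unfold tri
    push_cast
    rfl
  have hsh : (∑ x ∈ E, ((shifted F E x).card : ℝ)) ≤ q * tri F E := by
    have := sum_shifted_le hE
    exact_mod_cast this
  have hsplit : ∑ x ∈ E, (2 * (q : ℝ) ^ 2 * (nb F E x).card +
      (pairs F E (nb F E x) (nb F E x)).card + 2 * (shifted F E x).card) =
      2 * (q : ℝ) ^ 2 * ∑ x ∈ E, ((nb F E x).card : ℝ) +
      ∑ x ∈ E, ((pairs F E (nb F E x) (nb F E x)).card : ℝ) +
      2 * ∑ x ∈ E, ((shifted F E x).card : ℝ) := by
    rw [Finset.sum_add_distrib, Finset.sum_add_distrib, Finset.mul_sum, Finset.mul_sum]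
  rw [hsplit, ← hpairs, ← htri] at hsum
  have hqt : (tri F E : ℝ) ≤ q * tri F E := by
    have : (1 : ℝ) ≤ q := by exact_mod_cast hq1
    nlinarith [(Nat.cast_nonneg (tri F E) : (0 : ℝ) ≤ tri F E)]
  nlinarith [hsum, hsh, hqt]

end Pool.Agent.Helper35.Cq
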